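import Pool.Agent.Helper90.PLM.HULL

/-!
# An injection for the colours (row CARD of `Pool.Agent.Helper66.PLM`)
-/

open Ordinal Pool.Agent.Helper66.PLM Pool.Agent.Helper66.PLR

namespace Pool.Agent.Helper90.PLM

theorem exists_inj_omega : ∃ c : Set.Iio (ω₁ : Ordinal.{0}) → Set ℕ, Function.Injective c := by
  have h : Cardinal.lift.{0} (Cardinal.mk (Set.Iio (ω₁ : Ordinal.{0}))) ≤
      Cardinal.lift.{1} (Cardinal.mk (Set ℕ)) := by
    rw [Cardinal.mk_Iio_ordinal, Cardinal.mk_set, Cardinal.mk_nat]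
    simp only [Cardinal.lift_uzero]
    rw [Cardinal.lift_le]
    rw [← Cardinal.ord_aleph, Cardinal.card_ord]
    exact Cardinal.aleph_one_le_continuum
  obtain ⟨f⟩ := Cardinal.lift_mk_le'.mp h
  exact ⟨f, f.injective⟩

theorem exists_inj_set : ∃ i : ℕ × ((Set ℕ × Set (ℕ × ℕ)) ⊕ Set ℕ) → Set ℕ,
    Function.Injective i := by
  have h : Cardinal.mk (ℕ × ((Set ℕ × Set (ℕ × ℕ)) ⊕ Set ℕ)) ≤ Cardinal.mk (Set ℕ) := by
    simp
  obtain ⟨f⟩ := h
  exact ⟨f, f.injective⟩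

theorem st_CARD : ST_CARD := by
  classical
  obtain ⟨c, hc⟩ := exists_inj_omega
  obtain ⟨i, hi⟩ := exists_inj_set
  obtain ⟨t, ht⟩ := exists_injective_nat Tm
  have hk : ∀ α : Ordinal.{0}, ∃ k : Ordinal.{0} → ℕ, α < ω₁ → Set.InjOn k (Set.Iio α) := by
    intro α
    by_cases hα : α < ω₁
    · have := countable_Iio hα
      obtain ⟨k, hk⟩ := exists_injective_nat (Set.Iio α)
      refine ⟨fun β => if h : β < α then k ⟨β, h⟩ else 0, fun _ β hβ γ hγ e => ?_⟩
      have e' : k ⟨β, hβ⟩ = k ⟨γ, hγ⟩ := by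
        have h1 : (if h : β < α then k ⟨β, h⟩ else 0) = k ⟨β, hβ⟩ := dif_pos hβ
        have h2 : (if h : γ < α then k ⟨γ, h⟩ else 0) = k ⟨γ, hγ⟩ := dif_pos hγ
        rw [← h1, ← h2]
        exact e
      exact congrArg Subtype.val (hk e')
    · exact ⟨fun _ => 0, fun h => absurd h hα⟩
  choose k hk using hk
  -- code of a node
  let nd : {u : Ordinal.{0} × (Ordinal.{0} → Ordinal.{0}) // IsNode u} → Set ℕ × Set (ℕ × ℕ) :=
    fun u => (c ⟨u.1.1, u.2.1⟩, {p | ∃ (β : Ordinal.{0}) (h : β < u.1.1),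
      k u.1.1 β = p.1 ∧ p.2 ∈ c ⟨u.1.2 β, u.2.2.1 β h⟩})
  have hnd : Function.Injective nd := by
    rintro ⟨⟨α, s⟩, hu⟩ ⟨⟨α', s'⟩, hu'⟩ e
    have e1 : c ⟨α, hu.1⟩ = c ⟨α', hu'.1⟩ := congrArg Prod.fst e
    have e2 := congrArg Subtype.val (hc e1)
    change α = α' at e2
    subst e2
    have e3 := congrArg Prod.snd e
    change {p : ℕ × ℕ | ∃ (β : Ordinal.{0}) (h : β < α), k α β = p.1 ∧ p.2 ∈ c ⟨s β, hu.2.1 β h⟩} =
      {p : ℕ × ℕ | ∃ (β : Ordinal.{0}) (h : β < α), k α β = p.1 ∧ p.2 ∈ c ⟨s' β, hu'.2.1 β h⟩} at e3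
    have e4 : s = s' := by
      funext β
      by_cases hβ : β < α
      · have hcc : c ⟨s β, hu.2.1 β hβ⟩ = c ⟨s' β, hu'.2.1 β hβ⟩ := by
          ext n
          constructor
          · intro hn
            have hm : (k α β, n) ∈ {p : ℕ × ℕ | ∃ (β : Ordinal.{0}) (h : β < α),
                k α β = p.1 ∧ p.2 ∈ c ⟨s β, hu.2.1 β h⟩} := ⟨β, hβ, rfl, hn⟩
            rw [e3] at hm
            obtain ⟨β', h', e5, hn'⟩ := hm
            have : β' = β := hk α hu.1 h' hβ e5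
            subst this
            exact hn'
          · intro hn
            have hm : (k α β, n) ∈ {p : ℕ × ℕ | ∃ (β : Ordinal.{0}) (h : β < α),
                k α β = p.1 ∧ p.2 ∈ c ⟨s' β, hu'.2.1 β h⟩} := ⟨β, hβ, rfl, hn⟩
            rw [← e3] at hm
            obtain ⟨β', h', e5, hn'⟩ := hm
            have : β' = β := hk α hu.1 h' hβ e5
            subst this
            exact hn'
        exact congrArg Subtype.val (hc hcc)
      · exact (hu.2.2 β (not_lt.mp hβ)).trans (hu'.2.2 β (not_lt.mp hβ)).symm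
    subst e4
    rfl
  refine ⟨fun p => i (t p.1, Sum.map nd c p.2), ?_⟩
  intro p q h
  have h1 := hi h
  have h2 : t p.1 = t q.1 := congrArg Prod.fst h1
  have h3 : Sum.map nd c p.2 = Sum.map nd c q.2 := congrArg Prod.snd h1
  exact Prod.ext (ht h2) (Function.Injective.sumMap hnd hc h3)

end Pool.Agent.Helper90.PLM
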