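import Pool.Agent.Helper66.PLM.Stmts

/-!
# Hulls and indiscernibles (rows HULL1 .. HULL4 of `Pool.Agent.Helper66.PLM`)
-/

open Ordinal Pool.Agent.Helper66.PLM

namespace Pool.Agent.Helper90.PLM

variable {Ω : Type 1}

/-- bound of the variables of a term -/
def bd : Tm → ℕ
  | Tm.v n => n + 1
  | Tm.nil => 0
  | Tm.app a b => max (bd a) (bd b)
  | Tm.ap _ a => bd a

/-- renaming of variables -/
def ren (r : ℕ → ℕ) : Tm → Tm
  | Tm.v n => Tm.v (r n)
  | Tm.nil => Tm.nil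
  | Tm.app a b => Tm.app (ren r a) (ren r b)
  | Tm.ap k a => Tm.ap k (ren r a)

theorem ev_congr {g : ℕ → List Ω → Ω} {j : Ordinal.{0} → Ω} {σ σ' : ℕ → Ordinal.{0}} :
    ∀ τ : Tm, (∀ i < bd τ, σ i = σ' i) → ev g j σ τ = ev g j σ' τ
  | Tm.v n, h => by
    show [j (σ n)] = [j (σ' n)]
    rw [h n (Nat.lt_succ_self n)]
  | Tm.nil, _ => rfl
  | Tm.app a b, h => by
    show ev g j σ a ++ ev g j σ b = ev g j σ' a ++ ev g j σ' b
    rw [ev_congr a fun i hi => h i (lt_of_lt_of_le hi (le_max_left _ _)),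
      ev_congr b fun i hi => h i (lt_of_lt_of_le hi (le_max_right _ _))]
  | Tm.ap k a, h => by
    show [g k (ev g j σ a)] = [g k (ev g j σ' a)]
    rw [ev_congr a h]

theorem ev_ren {g : ℕ → List Ω → Ω} {j : Ordinal.{0} → Ω} {σ : ℕ → Ordinal.{0}} {r : ℕ → ℕ} :
    ∀ τ : Tm, ev g j σ (ren r τ) = ev g j (fun i => σ (r i)) τ
  | Tm.v _ => rfl
  | Tm.nil => rfl
  | Tm.app a b => by
    show ev g j σ (ren r a) ++ ev g j σ (ren r b) = ev g j _ a ++ ev g j _ b
    rw [ev_ren a, ev_ren b]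
  | Tm.ap k a => by
    show [g k (ev g j σ (ren r a))] = [g k (ev g j _ a)]
    rw [ev_ren a]

theorem st_HULL1 : ST_HULL1 := fun _ _ _ _ α hα => ⟨Tm.v 0, fun _ => α, fun _ => hα, rfl⟩

/-- a list of elements of the hull is the value of a term -/
theorem list_term {g : ℕ → List Ω → Ω} {j : Ordinal.{0} → Ω} {J : Set Ordinal.{0}}
    (hJ : J.Nonempty) : ∀ L : List Ω, (∀ x ∈ L, x ∈ Hull g j J) →
      ∃ (τ : Tm) (σ : ℕ → Ordinal.{0}), (∀ i, σ i ∈ J) ∧ ev g j σ τ = L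
  | [], _ => by
    obtain ⟨a, ha⟩ := hJ
    exact ⟨Tm.nil, fun _ => a, fun _ => ha, rfl⟩
  | x :: L, h => by
    obtain ⟨τ, σ, hσ, e⟩ := h x List.mem_cons_self
    obtain ⟨τ', σ', hσ', e'⟩ := list_term hJ L fun y hy => h y (List.mem_cons_of_mem _ hy)
    refine ⟨Tm.app (ren (fun i => 2 * i) τ) (ren (fun i => 2 * i + 1) τ'),
      fun i => if i % 2 = 0 then σ (i / 2) else σ' (i / 2), fun i => ?_, ?_⟩
    · show (if i % 2 = 0 then σ (i / 2) else σ' (i / 2)) ∈ J
      split_ifs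
      · exact hσ _
      · exact hσ' _
    · show ev g j _ (ren (fun i => 2 * i) τ) ++ ev g j _ (ren (fun i => 2 * i + 1) τ') = x :: L
      rw [ev_ren, ev_ren]
      have h1 : (fun i : ℕ => if (2 * i) % 2 = 0 then σ (2 * i / 2) else σ' (2 * i / 2)) = σ := by
        funext i
        rw [if_pos (by omega), show 2 * i / 2 = i by omega]
      have h2 : (fun i : ℕ => if (2 * i + 1) % 2 = 0 then σ ((2 * i + 1) / 2)
          else σ' ((2 * i + 1) / 2)) = σ' := by
        funext i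
        rw [if_neg (by omega), show (2 * i + 1) / 2 = i by omega]
      rw [h1, h2, e, e']
      rfl

theorem st_HULL2 : ST_HULL2 := by
  intro Ω g j J hJ k L hL
  obtain ⟨τ, σ, hσ, e⟩ := list_term hJ L hL
  refine ⟨Tm.ap k τ, σ, hσ, ?_⟩
  show [g k (ev g j σ τ)] = _
  rw [e]

deriving instance Countable for Tm

theorem st_HULL3 : ST_HULL3 := by
  intro Ω g j J hJ
  have : Countable J := hJ.to_subtype
  refine Set.Countable.mono (s₂ := ⋃ p : Σ τ : Tm, Fin (bd τ) → J,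
    {x | ev g j (fun i => if h : i < bd p.1 then (p.2 ⟨i, h⟩ : Ordinal.{0}) else 0) p.1 = [x]}) ?_
    (Set.countable_iUnion fun p => Set.Subsingleton.countable ?_)
  · rintro x ⟨τ, σ, hσ, e⟩
    refine Set.mem_iUnion.mpr ⟨⟨τ, fun i => ⟨σ i, hσ i⟩⟩, ?_⟩
    show ev g j (fun i => if h : i < bd τ then σ i else 0) τ = [x]
    rw [← e]
    exact ev_congr τ fun i hi => by rw [dif_pos hi]
  · intro x hx y hy
    exact (List.cons.inj (hx.symm.trans hy)).1

theorem srt_mem {s : Finset Ordinal.{0}} {k : ℕ} (hk : k < s.card) : srt s k ∈ s := by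
  have hl : k < (s.sort (· ≤ ·)).length := by rw [Finset.length_sort]; exact hk
  unfold srt
  rw [List.getD_eq_getElem _ _ hl]
  exact (Finset.mem_sort (· ≤ ·)).mp (List.getElem_mem hl)

theorem exists_srt {s : Finset Ordinal.{0}} {a : Ordinal.{0}} (ha : a ∈ s) :
    ∃ k < s.card, srt s k = a := by
  obtain ⟨n, hn, e⟩ := List.getElem_of_mem ((Finset.mem_sort (· ≤ ·)).mpr ha)
  refine ⟨n, by rwa [Finset.length_sort] at hn, ?_⟩
  unfold srt
  rw [List.getD_eq_getElem _ _ hn, e]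

theorem st_HULL4 : ST_HULL4 := by
  intro Ω A g j col e he hcol hhom ρ hρ x hx hne
  obtain ⟨τ, σ, hσ, ex⟩ := hx
  choose ξ hξ hξe using hσ
  have hξ' : ∀ i, ξ i < ω₁ := fun i => lt_trans (hξ i) hρ
  have hinj : Set.InjOn e (Set.Iio ω₁) := he.injOn
  classical
  -- the index sets
  obtain ⟨s₀, hs₀⟩ : ∃ s₀ : Finset Ordinal.{0}, s₀ = (Finset.range (bd τ)).image ξ := ⟨_, rfl⟩
  obtain ⟨t₀, ht₀⟩ : ∃ t₀ : Finset Ordinal.{0},
    t₀ = (Finset.range s₀.card).image (fun n : ℕ => (n : Ordinal.{0})) := ⟨_, rfl⟩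
  have hs : ∀ ζ ∈ s₀, ζ < ω₁ := by
    intro ζ hζ
    rw [hs₀, Finset.mem_image] at hζ
    obtain ⟨i, _, rfl⟩ := hζ
    exact hξ' i
  have htω : ∀ ζ ∈ t₀, ζ < ω := by
    intro ζ hζ
    rw [ht₀, Finset.mem_image] at hζ
    obtain ⟨i, _, rfl⟩ := hζ
    exact Ordinal.natCast_lt_omega0 i
  have ht : ∀ ζ ∈ t₀, ζ < ω₁ := fun ζ hζ => lt_trans (htω ζ hζ) Ordinal.omega0_lt_omega_one
  have hcard : s₀.card = t₀.card := by
    rw [ht₀, Finset.card_image_of_injective _ Nat.cast_injective, Finset.card_range]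
  have hes : (s₀.image e).card = s₀.card := Finset.card_image_of_injOn fun a ha b hb h =>
    hinj (hs a ha) (hs b hb) h
  have het : (t₀.image e).card = t₀.card := Finset.card_image_of_injOn fun a ha b hb h =>
    hinj (ht a ha) (ht b hb) h
  -- renaming
  have hr : ∀ i, ∃ k, i < bd τ → k < s₀.card ∧ srt (s₀.image e) k = σ i := by
    intro i
    by_cases hi : i < bd τ
    · obtain ⟨k, hk, ek⟩ := exists_srt (s := s₀.image e) (a := σ i) (by
        rw [← hξe i]
        exact Finset.mem_image_of_mem e (by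
          rw [hs₀]; exact Finset.mem_image_of_mem ξ (Finset.mem_range.mpr hi)))
      exact ⟨k, fun _ => ⟨by rwa [hes] at hk, ek⟩⟩
    · exact ⟨0, fun h => absurd h hi⟩
  choose r hr using hr
  have hval : ∀ y, ev g j (srt (s₀.image e)) (ren r τ) = [y] ↔ y = x := by
    intro y
    rw [ev_ren, ev_congr τ (σ' := σ) fun i hi => (hr i hi).2, ex]
    constructor
    · intro h; exact (List.cons.inj h).1.symm
    · rintro rfl; rfl
  have hF := hhom s₀ t₀ hs ht hcard
  have hmem : ∀ a, a ∈ col x ↔ (ren r τ, a) ∈ colF g j col (s₀.image e) := by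
    intro a
    constructor
    · intro ha; exact ⟨x, (hval x).mpr rfl, ha⟩
    · rintro ⟨y, hy, ha⟩
      rw [(hval y).mp hy] at ha
      exact ha
  obtain ⟨a, ha⟩ := hne
  obtain ⟨x', hx', ha'⟩ : (ren r τ, a) ∈ colF g j col (t₀.image e) := hF ▸ (hmem a).mp ha
  have hmem' : ∀ b, b ∈ col x' ↔ (ren r τ, b) ∈ colF g j col (t₀.image e) := by
    intro b
    constructor
    · intro hb; exact ⟨x', hx', hb⟩
    · rintro ⟨y, hy, hb⟩
      have : y = x' := (List.cons.inj (hy.symm.trans hx')).1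
      rw [this] at hb
      exact hb
  have hcc : col x = col x' := by
    ext b
    rw [hmem, hmem', hF]
  have hxx : x = x' := hcol x x' ⟨a, ha⟩ hcc
  -- the new assignment
  refine ⟨τ, fun i => if i < bd τ then srt (t₀.image e) (r i) else e 0, fun i => ?_, ?_⟩
  · show (if i < bd τ then srt (t₀.image e) (r i) else e 0) ∈ e '' Set.Iio ω
    split_ifs with hi
    · have hk : r i < (t₀.image e).card := by rw [het, ← hcard]; exact (hr i hi).1
      obtain ⟨ζ, hζ, eζ⟩ := Finset.mem_image.mp (srt_mem hk)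
      exact ⟨ζ, htω ζ hζ, eζ⟩
    · exact ⟨0, Ordinal.omega0_pos, rfl⟩
  · rw [hxx, ← hx', ev_ren]
    exact ev_congr τ fun i hi => if_pos hi

end Pool.Agent.Helper90.PLM
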