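import Pool.Agent.Helper66.PLM.Stmts

/-!
# Order types of sets of ordinals (rows OTP1, OTP2 of `Pool.Agent.Helper66.PLM`)
-/

open Ordinal Pool.Agent.Helper66.PLM

namespace Pool.Agent.Helper90.PLM

theorem le_of_strict {f : Ordinal.{0} → Ordinal.{0}} {γ : Ordinal.{0}}
    (h : ∀ ξ < γ, ∀ ζ < ξ, f ζ < f ξ) : ∀ ξ < γ, ξ ≤ f ξ := by
  intro ξ
  induction ξ using WellFoundedLT.induction with
  | ind ξ ih =>
    intro hξ
    refine le_of_forall_lt fun ζ hζ => lt_of_le_of_lt (ih ζ hζ (lt_trans hζ hξ)) (h ξ hξ ζ hζ)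

theorem otp_le {S : Set Ordinal.{0}} {γ γ' : Ordinal.{0}} (h : Otp S γ) (h' : Otp S γ') :
    γ' ≤ γ := by
  obtain ⟨e, he, hS⟩ := h
  obtain ⟨e', he', hS'⟩ := h'
  by_contra hlt
  rw [not_le] at hlt
  have hf : ∀ ξ, ∃ y, ξ < γ' → y < γ ∧ e y = e' ξ := by
    intro ξ
    by_cases hξ : ξ < γ'
    · have : e' ξ ∈ S := by rw [← hS']; exact ⟨ξ, hξ, rfl⟩
      rw [← hS] at this
      obtain ⟨y, hy, e1⟩ := this
      exact ⟨y, fun _ => ⟨hy, e1⟩⟩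
    · exact ⟨0, fun h => absurd h hξ⟩
  choose f hf using hf
  have hm : ∀ ξ < γ', ∀ ζ < ξ, f ζ < f ξ := by
    intro ξ hξ ζ hζ
    have h1 := hf ξ hξ
    have h2 := hf ζ (lt_trans hζ hξ)
    rw [← he.lt_iff_lt h2.1 h1.1, h1.2, h2.2]
    exact he' (lt_trans hζ hξ : ζ < γ') hξ hζ
  exact absurd (hf γ hlt).1 (not_lt.mpr (le_of_strict hm γ hlt))

theorem st_OTP1 : ST_OTP1 := fun _ _ _ h h' => le_antisymm (otp_le h' h) (otp_le h h')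

theorem st_OTP2 : ST_OTP2 := by
  intro A κ ρ γ e hA he heA hγ
  have hS : ¬ BddAbove (A ∪ Set.Ici κ) := by
    rw [not_bddAbove_iff]
    intro x
    exact ⟨max κ (Order.succ x), Or.inr (Set.mem_Ici.mpr (le_max_left _ _)),
      lt_of_lt_of_le (Order.lt_succ x) (le_max_right _ _)⟩
  have hle : ∀ ξ < ρ, enumOrd (A ∪ Set.Ici κ) ξ ≤ e ξ := by
    intro ξ
    induction ξ using WellFoundedLT.induction with
    | ind ξ ih =>
      intro hξ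
      exact enumOrd_le_of_forall_lt (Or.inl (heA ξ hξ)) fun ζ hζ =>
        lt_of_le_of_lt (ih ζ hζ (lt_trans hζ hξ)) (he (lt_trans hζ hξ : ζ < ρ) hξ hζ)
  have hm := enumOrd_strictMono hS
  have hk : enumOrd (A ∪ Set.Ici κ) γ < κ := lt_of_le_of_lt (hle γ hγ) (hA _ (heA γ hγ))
  have hin : ∀ ξ ≤ γ, enumOrd (A ∪ Set.Ici κ) ξ ∈ A := by
    intro ξ hξ
    rcases enumOrd_mem hS ξ with h | h
    · exact h
    · exact absurd (lt_of_le_of_lt (hm.monotone hξ) hk) (not_lt.mpr h)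
  refine ⟨enumOrd (A ∪ Set.Ici κ) γ, hin γ le_rfl, enumOrd (A ∪ Set.Ici κ), hm.strictMonoOn _, ?_⟩
  ext a
  constructor
  · rintro ⟨ξ, hξ, rfl⟩
    exact ⟨hin ξ (le_of_lt hξ), hm hξ⟩
  · rintro ⟨ha, hlt⟩
    obtain ⟨ξ, rfl⟩ := enumOrd_surjective hS (Or.inl ha : a ∈ A ∪ Set.Ici κ)
    exact ⟨ξ, hm.lt_iff_lt.mp hlt, rfl⟩

end Pool.Agent.Helper90.PLM
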